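import Pool.Agent.K4H23.NV.Defs

set_option autoImplicit false

open Finset

namespace Pool.Agent.K4H23.NV

variable {m : ℕ}

/-- the vectors on the first axis -/
def ax (a : ℤ) : Fin (m + 1) → ℤ := Pi.single 0 a

/-- the numbers which occur on the axis -/
def A : Finset ℤ := {-7, -6, -4, -3, -2, 0, 2, 3, 4, 6, 7}

/-- the other unit vectors -/
def E (m : ℕ) : Finset (Fin (m + 1) → ℤ) :=
  (univ.filter fun i : Fin (m + 1) => i ≠ 0).biUnion fun i => {Pi.single i 1, Pi.single i (-1)}

/-- the generators and zero -/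
def U0 (m : ℕ) : Finset (Fin (m + 1) → ℤ) := A.image ax ∪ E m

lemma mem_U0 {x : Fin (m + 1) → ℤ} : x ∈ U0 m ↔ (∃ a ∈ A, ax a = x) ∨
    ∃ i : Fin (m + 1), i ≠ 0 ∧ (x = Pi.single i 1 ∨ x = Pi.single i (-1)) := by
  simp [U0, E]

lemma ax_inj {a b : ℤ} (h : (ax a : Fin (m + 1) → ℤ) = ax b) : a = b := by
  have := congrFun h 0
  simpa [ax] using this

lemma ax_zero : (ax 0 : Fin (m + 1) → ℤ) = 0 := by simp [ax]

lemma ax_add (a b : ℤ) : (ax (a + b) : Fin (m + 1) → ℤ) = ax a + ax b := by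
  simp [ax, Pi.single_add]

lemma ax_sub (a b : ℤ) : (ax (a - b) : Fin (m + 1) → ℤ) = ax a - ax b := by
  simp [ax, Pi.single_sub]

lemma ax_apply {i : Fin (m + 1)} (hi : i ≠ 0) (a : ℤ) : (ax a : Fin (m + 1) → ℤ) i = 0 := by
  simp [ax, hi]

/-- the translate of the set of the generators and zero -/
def T (x : Fin (m + 1) → ℤ) : Finset (Fin (m + 1) → ℤ) := (U0 m).image (x + ·)

lemma mem_T {x y : Fin (m + 1) → ℤ} : y ∈ T x ↔ y - x ∈ U0 m := by
  constructor
  · intro h
    obtain ⟨u, hu, rfl⟩ := mem_image.1 h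
    simpa using hu
  · intro h
    exact mem_image.2 ⟨y - x, h, by simp⟩

lemma card_T (x : Fin (m + 1) → ℤ) : (T x).card = (U0 m).card :=
  card_image_of_injective _ (add_right_injective x)

/-- the number of the representations as a difference -/
def r (b : Fin (m + 1) → ℤ) : ℕ := (U0 m ∩ T b).card

lemma inter_T (x y : Fin (m + 1) → ℤ) : T x ∩ T y = (U0 m ∩ T (y - x)).image (x + ·) := by
  ext z
  simp only [mem_inter, mem_T, mem_image]
  constructor
  · rintro ⟨h1, h2⟩
    exact ⟨z - x, ⟨h1, by rwa [sub_sub_sub_cancel_right]⟩, by simp⟩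
  · rintro ⟨u, ⟨h1, h2⟩, rfl⟩
    refine ⟨by simpa using h1, ?_⟩
    have : x + u - y = u - (y - x) := by abel
    rwa [this]

lemma card_inter_T (x y : Fin (m + 1) → ℤ) : (T x ∩ T y).card = r (y - x) := by
  rw [inter_T, card_image_of_injective _ (add_right_injective x)]
  rfl

/-- off the axis there are at most four representations -/
lemma r_off {b : Fin (m + 1) → ℤ} {i : Fin (m + 1)} (hi : i ≠ 0) (hb : b i ≠ 0) : r b ≤ 4 := by
  have h : U0 m ∩ T b ⊆ {Pi.single i 1, Pi.single i (-1), b + Pi.single i 1,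
      b + Pi.single i (-1)} := by
    intro x hx
    rw [mem_inter, mem_T] at hx
    obtain ⟨h1, h2⟩ := hx
    have key : ∀ y ∈ U0 m, y i ≠ 0 → y = Pi.single i 1 ∨ y = Pi.single i (-1) := by
      intro y hy hyi
      rw [mem_U0] at hy
      rcases hy with ⟨a, -, rfl⟩ | ⟨j, hj, h | h⟩
      · exact absurd (ax_apply hi a) hyi
      · by_cases hij : i = j
        · subst hij; exact Or.inl h
        · rw [h, Pi.single_eq_of_ne hij] at hyi; exact absurd rfl hyi
      · by_cases hij : i = j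
        · subst hij; exact Or.inr h
        · rw [h, Pi.single_eq_of_ne hij] at hyi; exact absurd rfl hyi
    simp only [mem_insert, mem_singleton]
    by_cases hx : x i = 0
    · have h3 : (x - b) i ≠ 0 := by simp [hx, hb]
      rcases key _ h2 h3 with h | h
      · right; right; left; rw [← h]; abel
      · right; right; right; rw [← h]; abel
    · rcases key _ h1 hx with h | h
      · left; exact h
      · right; left; exact h
  exact (card_le_card h).trans card_le_four

/-- on the axis -/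
lemma inter_axis {s : ℤ} (hs : s ≠ 0) :
    U0 m ∩ T (ax s) ⊆ (A ∩ A.image (s + ·)).image ax := by
  intro x hx
  rw [mem_inter, mem_T] at hx
  obtain ⟨h1, h2⟩ := hx
  rw [mem_U0] at h1
  rcases h1 with ⟨a, ha, rfl⟩ | ⟨i, hi, h⟩
  · rw [← ax_sub, mem_U0] at h2
    rcases h2 with ⟨c, hc, h3⟩ | ⟨i, hi, h3⟩
    · have h4 := ax_inj h3
      refine mem_image.2 ⟨a, mem_inter.2 ⟨ha, mem_image.2 ⟨c, hc, by omega⟩⟩, rfl⟩
    · exfalso
      rcases h3 with h3 | h3
      · have := congrFun h3 i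
        rw [ax_apply hi, Pi.single_eq_same] at this
        omega
      · have := congrFun h3 i
        rw [ax_apply hi, Pi.single_eq_same] at this
        omega
  · exfalso
    have h0 : (x - (ax s : Fin (m + 1) → ℤ)) 0 = - s := by
      rcases h with rfl | rfl
      · simp [ax, Pi.single_eq_of_ne hi.symm]
      · simp [ax, Pi.single_eq_of_ne hi.symm]
    have hi0 : (x - (ax s : Fin (m + 1) → ℤ)) i ≠ 0 := by
      rcases h with rfl | rfl
      · simp [ax_apply hi]
      · simp [ax_apply hi]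
    rw [mem_U0] at h2
    rcases h2 with ⟨c, -, h3⟩ | ⟨j, hj, h3⟩
    · rw [← h3, ax_apply hi] at hi0
      exact hi0 rfl
    · have h5 : (x - (ax s : Fin (m + 1) → ℤ)) 0 = 0 := by
        rcases h3 with h3 | h3
        · rw [h3, Pi.single_eq_of_ne hj.symm]
        · rw [h3, Pi.single_eq_of_ne hj.symm]
      omega

lemma axis_inter {s : ℤ} : (A ∩ A.image (s + ·)).image ax ⊆ U0 m ∩ T (ax s) := by
  intro x hx
  obtain ⟨a, ha, rfl⟩ := mem_image.1 hx
  rw [mem_inter] at ha
  obtain ⟨c, hc, h⟩ := mem_image.1 ha.2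
  rw [mem_inter, mem_T, ← ax_sub]
  refine ⟨mem_U0.2 (Or.inl ⟨a, ha.1, rfl⟩), mem_U0.2 (Or.inl ⟨c, hc, ?_⟩)⟩
  congr 1
  omega

lemma axInj : Function.Injective (ax : ℤ → Fin (m + 1) → ℤ) := fun _ _ => ax_inj

lemma r_axis {s : ℤ} (hs : s ≠ 0) : r (ax s : Fin (m + 1) → ℤ) = (A ∩ A.image (s + ·)).card := by
  unfold r
  rw [subset_antisymm (inter_axis hs) axis_inter, card_image_of_injective _ axInj]

end Pool.Agent.K4H23.NV
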