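import Mathlib

/-!
# Three sizes for which the optimal boxes are not nested: arithmetic
-/

set_option autoImplicit false

namespace Pool.Agent.K4H23.NV

/-- If `b c + a r ≤ 2 a b M + a` and `c r ≥ a M (b M + 1)` with `a < b` then `r ≥ b M + 1`. -/
theorem rows_ge {a b M c r : ℤ} (ha : 1 ≤ a) (hab : a < b) (hM : 1 ≤ M) (hr : 0 ≤ r)
    (h : b * c + a * r ≤ b * (a * M) + a * (b * M + 1)) (p : a * M * (b * M + 1) ≤ c * r) :
    b * M + 1 ≤ r := by
  have haM : 0 < a * M := by positivity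
  have hc : c ≤ a * M := by
    by_contra hcon
    push Not at hcon
    obtain ⟨i, hi, rfl⟩ : ∃ i : ℤ, 1 ≤ i ∧ c = a * M + i := ⟨c - a * M, by omega, by ring⟩
    have h1 : a * r ≤ a * b * M + a - b * i := by nlinarith
    have h2 : a * (a * M * (b * M + 1)) ≤ (a * M + i) * (a * b * M + a - b * i) := by
      calc a * (a * M * (b * M + 1)) ≤ a * ((a * M + i) * r) :=
            mul_le_mul_of_nonneg_left p (by omega)
        _ = (a * M + i) * (a * r) := by ring
        _ ≤ _ := mul_le_mul_of_nonneg_left h1 (by nlinarith)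
    have h3 : b * (i * i) ≤ a * i := by nlinarith
    have h4 : b * i ≤ a := by
      have : (b * i) * i ≤ a * i := by nlinarith
      exact le_of_mul_le_mul_right this (by omega)
    nlinarith
  by_contra hcon
  push Not at hcon
  have h5 : c * r ≤ a * M * r := mul_le_mul_of_nonneg_right hc hr
  have h6 : a * M * (b * M + 1) ≤ a * M * r := le_trans p h5
  have := le_of_mul_le_mul_left h6 haM
  omega

/-- If `b c + a r ≤ 2 a b M - a` and `c r ≥ a M (b M - 1)` with `a < b` then `r ≤ b M - 1`. -/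
theorem rows_le {a b M c r : ℤ} (ha : 1 ≤ a) (hab : a < b) (hc0 : 0 ≤ c)
    (h : b * c + a * r ≤ b * (a * M) + a * (b * M - 1)) (p : a * M * (b * M - 1) ≤ c * r) :
    r ≤ b * M - 1 := by
  have hc : a * M ≤ c := by
    by_contra hcon
    push Not at hcon
    obtain ⟨i, hi, rfl⟩ : ∃ i : ℤ, 1 ≤ i ∧ c = a * M - i := ⟨a * M - c, by omega, by ring⟩
    have h1 : a * r ≤ a * b * M - a + b * i := by nlinarith
    have h2 : a * (a * M * (b * M - 1)) ≤ (a * M - i) * (a * b * M - a + b * i) := by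
      calc a * (a * M * (b * M - 1)) ≤ a * ((a * M - i) * r) :=
            mul_le_mul_of_nonneg_left p (by omega)
        _ = (a * M - i) * (a * r) := by ring
        _ ≤ _ := mul_le_mul_of_nonneg_left h1 hc0
    have h4 : b * i ≤ a := by
      have : (b * i) * i ≤ a * i := by nlinarith
      exact le_of_mul_le_mul_right this (by omega)
    nlinarith
  have h5 : b * (a * M) ≤ b * c := mul_le_mul_of_nonneg_left hc (by omega)
  have h6 : a * r ≤ a * (b * M - 1) := by linarith
  exact le_of_mul_le_mul_left h6 (by omega)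

/-- At the cost `a b (2 m + 1)` there are only two optimal boxes. -/
theorem rows_tie {a b m c r : ℤ} (ha : 1 ≤ a) (hab : a < b) (cop : IsCoprime a b)
    (hm : a * b ≤ m) (hc0 : 0 ≤ c) (hr : b * m + 1 ≤ r)
    (h : b * c + a * r ≤ b * (a * m) + a * (b * (m + 1)))
    (p : a * m * (b * (m + 1)) ≤ c * r) : b * (m + 1) ≤ r := by
  by_contra hcon
  push Not at hcon
  obtain ⟨s, hs, rfl⟩ : ∃ s : ℤ, 1 ≤ s ∧ r = b * (m + 1) - s := ⟨b * (m + 1) - r, by omega, by ring⟩
  obtain ⟨i, rfl⟩ : ∃ i : ℤ, c = a * m + i := ⟨c - a * m, by ring⟩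
  have hsb : s ≤ b - 1 := by nlinarith
  have h1 : b * i ≤ a * s := by nlinarith
  have hm0 : 0 < m := by nlinarith
  have ham : 0 < a * m := by positivity
  have p' : a * m * s + i * s ≤ b * i * (m + 1) := by nlinarith
  have hi1 : 1 ≤ i := by
    by_contra hi
    push Not at hi
    have h2 : i * (b * (m + 1) - s) ≤ 0 := by
      have : 0 ≤ b * (m + 1) - s := by nlinarith
      nlinarith
    have h3 : 0 < a * m * s := by positivity
    nlinarith
  have hia : i < a := by
    have : b * i < b * a := by nlinarith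
    exact lt_of_mul_lt_mul_left this (by omega)
  have hne : b * i ≠ a * s := by
    intro he
    have hd : a ∣ b * i := ⟨s, he⟩
    have hd' : a ∣ i := cop.dvd_of_dvd_mul_left hd
    have := Int.le_of_dvd (by omega) hd'
    omega
  have h4 : b * i + 1 ≤ a * s := by omega
  have h5 : m * (b * i + 1) ≤ m * (a * s) := mul_le_mul_of_nonneg_left h4 hm0.le
  have h6 : m + i * s ≤ b * i := by nlinarith
  have h7 : b * i ≤ b * (a - 1) := mul_le_mul_of_nonneg_left (by omega) (by omega)
  have h8 : 0 < i * s := by positivity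
  nlinarith

/-- The three types cannot be increasing. -/
theorem arith {a b m c₁ r₁ c₂ r₂ c₃ r₃ : ℤ} (ha : 1 ≤ a) (hab : a < b) (cop : IsCoprime a b)
    (hm : a * b ≤ m) (hr1 : 0 ≤ r₁) (hc2 : 0 ≤ c₂) (hc3 : 0 ≤ c₃)
    (h₁ : b * c₁ + a * r₁ ≤ b * (a * m) + a * (b * m + 1)) (p₁ : a * m * (b * m + 1) ≤ c₁ * r₁)
    (h₂ : b * c₂ + a * r₂ ≤ b * (a * m) + a * (b * (m + 1)))
    (p₂ : a * m * (b * (m + 1)) ≤ c₂ * r₂)
    (h₃ : b * c₃ + a * r₃ ≤ b * (a * (m + 1)) + a * (b * (m + 1) - 1))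
    (p₃ : a * (m + 1) * (b * (m + 1) - 1) ≤ c₃ * r₃)
    (h12 : r₁ ≤ r₂) (h23 : r₂ ≤ r₃) : False := by
  have hm0 : 1 ≤ m := by nlinarith
  have e1 := rows_ge ha hab hm0 hr1 h₁ p₁
  have e2 := rows_tie ha hab cop hm hc2 (le_trans e1 h12) h₂ p₂
  have e3 := rows_le ha hab hc3 h₃ p₃
  omega

end Pool.Agent.K4H23.NV
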