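import Pool.Agent.K4H23.NV.Defs
import Pool.Agent.K4H23.NV.BoxArith

/-!
# The vertex boundary of plane sets for a box of neighbours
-/

set_option autoImplicit false

namespace Pool.Agent.K4H23.NV

open Finset

/-- The set `T` together with its translate by the unit vector `e i`. -/
def up (i : Fin 2) (T : Finset (Fin 2 → ℤ)) : Finset (Fin 2 → ℤ) :=
  T ∪ T.image fun x => x + Pi.single i 1

/-- The projection of `T` to the coordinate `j`. -/
def shadow (j : Fin 2) (T : Finset (Fin 2 → ℤ)) : Finset ℤ := T.image fun x => x j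

theorem subset_up (i : Fin 2) (T : Finset (Fin 2 → ℤ)) : T ⊆ up i T := subset_union_left

theorem shadow_mono {j : Fin 2} {S T : Finset (Fin 2 → ℤ)} (h : S ⊆ T) :
    shadow j S ⊆ shadow j T := image_subset_image h

theorem card_up {i j : Fin 2} (hij : i ≠ j) (T : Finset (Fin 2 → ℤ)) :
    T.card + (shadow j T).card ≤ (up i T).card := by
  have h : shadow j T ⊆ (up i T \ T).image (fun x => x j) := by
    intro v hv
    obtain ⟨x, hx, rfl⟩ := mem_image.1 hv
    obtain ⟨y, hy, hmax⟩ := exists_max_image (T.filter fun y => y j = x j) (fun y => y i)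
      ⟨x, mem_filter.2 ⟨hx, rfl⟩⟩
    rw [mem_filter] at hy
    have hj : (y + Pi.single i (1 : ℤ) : Fin 2 → ℤ) j = x j := by
      rw [Pi.add_apply, Pi.single_eq_of_ne (Ne.symm hij), add_zero, hy.2]
    have hi : (y + Pi.single i (1 : ℤ) : Fin 2 → ℤ) i = y i + 1 := by
      rw [Pi.add_apply, Pi.single_eq_same]
    refine mem_image.2 ⟨y + Pi.single i 1, mem_sdiff.2
      ⟨mem_union_right _ (mem_image_of_mem _ hy.1), fun hc => ?_⟩, hj⟩
    have h1 := hmax _ (mem_filter.2 ⟨hc, hj⟩)
    rw [hi] at h1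
    omega
  have h2 : (shadow j T).card ≤ (up i T \ T).card := (card_le_card h).trans card_image_le
  have h3 : (up i T \ T).card + T.card = (up i T).card :=
    card_sdiff_add_card_eq_card (subset_up i T)
  omega

theorem shadow_up {i : Fin 2} {T : Finset (Fin 2 → ℤ)} (hT : T.Nonempty) :
    (shadow i T).card + 1 ≤ (shadow i (up i T)).card := by
  obtain ⟨y, hy, hmax⟩ := exists_max_image T (fun y => y i) hT
  have hi : (y + Pi.single i (1 : ℤ) : Fin 2 → ℤ) i = y i + 1 := by
    rw [Pi.add_apply, Pi.single_eq_same]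
  have hn : y i + 1 ∉ shadow i T := by
    intro hc
    obtain ⟨x, hx, hxy⟩ := mem_image.1 hc
    have := hmax x hx
    omega
  rw [← card_insert_of_notMem hn]
  refine card_le_card (insert_subset ?_ (shadow_mono (subset_up i T)))
  exact mem_image.2 ⟨y + Pi.single i 1, mem_union_right _ (mem_image_of_mem _ hy), hi⟩

theorem subset_iter (i : Fin 2) (T : Finset (Fin 2 → ℤ)) (k : ℕ) : T ⊆ (up i)^[k] T := by
  induction k with
  | zero => exact Subset.rfl
  | succ k ih =>
    rw [Function.iterate_succ_apply']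
    exact ih.trans (subset_up _ _)

theorem card_iter {i j : Fin 2} (hij : i ≠ j) (T : Finset (Fin 2 → ℤ)) (k : ℕ) :
    T.card + k * (shadow j T).card ≤ ((up i)^[k] T).card := by
  induction k with
  | zero => simp
  | succ k ih =>
    rw [Function.iterate_succ_apply']
    have h1 := card_up hij ((up i)^[k] T)
    have h2 : (shadow j T).card ≤ (shadow j ((up i)^[k] T)).card :=
      card_le_card (shadow_mono (subset_iter i T k))
    calc T.card + (k + 1) * (shadow j T).card
        = (T.card + k * (shadow j T).card) + (shadow j T).card := by ring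
      _ ≤ ((up i)^[k] T).card + (shadow j ((up i)^[k] T)).card := add_le_add ih h2
      _ ≤ _ := h1

theorem shadow_iter {i : Fin 2} {T : Finset (Fin 2 → ℤ)} (hT : T.Nonempty) (k : ℕ) :
    (shadow i T).card + k ≤ (shadow i ((up i)^[k] T)).card := by
  induction k with
  | zero => simp
  | succ k ih =>
    rw [Function.iterate_succ_apply']
    have := shadow_up (i := i) (hT.mono (subset_iter i T k))
    omega

theorem mem_iter {i j : Fin 2} (hij : i ≠ j) {T : Finset (Fin 2 → ℤ)} {k : ℕ} {x : Fin 2 → ℤ}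
    (hx : x ∈ (up i)^[k] T) : ∃ y ∈ T, y j = x j ∧ y i ≤ x i ∧ x i ≤ y i + k := by
  induction k generalizing x with
  | zero => exact ⟨x, hx, rfl, le_rfl, by simp⟩
  | succ k ih =>
    rw [Function.iterate_succ_apply'] at hx
    rcases mem_union.1 hx with hx | hx
    · obtain ⟨y, hy, h1, h2, h3⟩ := ih hx
      exact ⟨y, hy, h1, h2, by push_cast; omega⟩
    · obtain ⟨z, hz, rfl⟩ := mem_image.1 hx
      obtain ⟨y, hy, h1, h2, h3⟩ := ih hz
      have hj : (z + Pi.single i (1 : ℤ) : Fin 2 → ℤ) j = z j := by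
        rw [Pi.add_apply, Pi.single_eq_of_ne (Ne.symm hij), add_zero]
      have hi : (z + Pi.single i (1 : ℤ) : Fin 2 → ℤ) i = z i + 1 := by
        rw [Pi.add_apply, Pi.single_eq_same]
      refine ⟨y, hy, by rw [hj]; exact h1, by rw [hi]; omega, by rw [hi]; push_cast; omega⟩

/-- The box of the vectors between `l` and `u`, without `0`. -/
noncomputable def box (l u : Fin 2 → ℤ) : Finset (Fin 2 → ℤ) := (Icc l u).erase 0

/-- The sum of `S` and the full box. -/
noncomputable def thick (l u : Fin 2 → ℤ) (S : Finset (Fin 2 → ℤ)) : Finset (Fin 2 → ℤ) :=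
  S.biUnion fun x => (Icc l u).image fun t => x + t

theorem boundary_add_card {l u : Fin 2 → ℤ} (hl : l ≤ 0) (hu : 0 ≤ u)
    (S : Finset (Fin 2 → ℤ)) : boundary (box l u) S + S.card = (thick l u S).card := by
  have hsub : S ⊆ thick l u S := fun x hx =>
    mem_biUnion.2 ⟨x, hx, mem_image.2 ⟨0, mem_Icc.2 ⟨hl, hu⟩, add_zero x⟩⟩
  have he : (S.biUnion fun x => (box l u).image fun t => x + t) \ S = thick l u S \ S := by
    ext z
    simp only [mem_sdiff, mem_biUnion, mem_image, thick, box, mem_erase]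
    constructor
    · rintro ⟨⟨x, hx, t, ⟨-, ht⟩, rfl⟩, hz⟩
      exact ⟨⟨x, hx, t, ht, rfl⟩, hz⟩
    · rintro ⟨⟨x, hx, t, ht, rfl⟩, hz⟩
      refine ⟨⟨x, hx, t, ⟨fun h0 => hz ?_, ht⟩, rfl⟩, hz⟩
      rw [h0, add_zero]
      exact hx
  rw [boundary, he]
  exact card_sdiff_add_card_eq_card hsub

theorem thick_ge {l u : Fin 2 → ℤ} {a b : ℕ} (ha : u 0 = l 0 + a) (hb : u 1 = l 1 + b)
    {S : Finset (Fin 2 → ℤ)} (hS : S.Nonempty) :
    S.card + b * (shadow 0 S).card + a * ((shadow 1 S).card + b) ≤ (thick l u S).card := by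
  have h01 : (0 : Fin 2) ≠ 1 := by decide
  set T₁ := (up 1)^[b] S with hT₁
  set T₂ := (up 0)^[a] T₁ with hT₂
  have h1 : S.card + b * (shadow 0 S).card ≤ T₁.card := card_iter h01.symm S b
  have h2 : (shadow 1 S).card + b ≤ (shadow 1 T₁).card := shadow_iter hS b
  have h3 : T₁.card + a * (shadow 1 T₁).card ≤ T₂.card := card_iter h01 T₁ a
  have h4 : T₂.card ≤ (thick l u S).card := by
    rw [← card_image_of_injective T₂ (add_left_injective l)]
    refine card_le_card fun z hz => ?_
    obtain ⟨x, hx, rfl⟩ := mem_image.1 hz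
    obtain ⟨y, hy, y1, y2, y3⟩ := mem_iter h01 hx
    obtain ⟨w, hw, w1, w2, w3⟩ := mem_iter h01.symm hy
    refine mem_biUnion.2 ⟨w, hw, mem_image.2 ⟨x - w + l, mem_Icc.2 ⟨?_, ?_⟩, ?_⟩⟩
    · intro i
      fin_cases i
      · simp only [Fin.zero_eta, Pi.add_apply, Pi.sub_apply]; omega
      · simp only [Fin.mk_one, Pi.add_apply, Pi.sub_apply]; omega
    · intro i
      fin_cases i
      · simp only [Fin.zero_eta, Pi.add_apply, Pi.sub_apply]; omega
      · simp only [Fin.mk_one, Pi.add_apply, Pi.sub_apply]; omega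
    · abel
  calc S.card + b * (shadow 0 S).card + a * ((shadow 1 S).card + b)
      ≤ T₁.card + a * (shadow 1 T₁).card := add_le_add h1 (Nat.mul_le_mul_left a h2)
    _ ≤ T₂.card := h3
    _ ≤ _ := h4

/-- The box with `c` columns and `r` rows. -/
noncomputable def rect (c r : ℕ) : Finset (Fin 2 → ℤ) := Icc 0 ![(c : ℤ) - 1, (r : ℤ) - 1]

theorem card_rect (c r : ℕ) : (rect c r).card = c * r := by
  rw [rect, Pi.card_Icc, Fin.prod_univ_two]
  simp

theorem thick_rect {l u : Fin 2 → ℤ} {a b : ℕ} (ha : u 0 = l 0 + a) (hb : u 1 = l 1 + b)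
    {c r : ℕ} (hc : 1 ≤ c) (hr : 1 ≤ r) :
    (thick l u (rect c r)).card ≤ (c + a) * (r + b) := by
  have hsub : thick l u (rect c r) ⊆ Icc l ![u 0 + (c - 1), u 1 + (r - 1)] := by
    intro z hz
    obtain ⟨x, hx, hz⟩ := mem_biUnion.1 hz
    obtain ⟨t, ht, rfl⟩ := mem_image.1 hz
    rw [rect, mem_Icc] at hx
    rw [mem_Icc] at ht ⊢
    have x0 := hx.1 0
    have x1 := hx.1 1
    have x2 := hx.2 0
    have x3 := hx.2 1
    have t0 : l 0 ≤ t 0 := ht.1 0
    have t1 : l 1 ≤ t 1 := ht.1 1
    have t2 : t 0 ≤ u 0 := ht.2 0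
    have t3 : t 1 ≤ u 1 := ht.2 1
    simp only [Pi.zero_apply, Matrix.cons_val_zero, Matrix.cons_val_one] at x0 x1 x2 x3
    constructor
    · intro i
      fin_cases i
      · simp only [Fin.zero_eta, Pi.add_apply]; omega
      · simp only [Fin.mk_one, Pi.add_apply]; omega
    · intro i
      fin_cases i
      · change x 0 + t 0 ≤ u 0 + ((c : ℤ) - 1); omega
      · change x 1 + t 1 ≤ u 1 + ((r : ℤ) - 1); omega
  refine (card_le_card hsub).trans (le_of_eq ?_)
  rw [Pi.card_Icc, Fin.prod_univ_two]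
  simp only [Matrix.cons_val_zero, Matrix.cons_val_one, Int.card_Icc]
  have e1 : (u 0 + (c - 1) + 1 - l 0).toNat = c + a := by omega
  have e2 : (u 1 + (r - 1) + 1 - l 1).toNat = r + b := by omega
  rw [e1, e2]

theorem card_le_shadows (S : Finset (Fin 2 → ℤ)) :
    S.card ≤ (shadow 0 S).card * (shadow 1 S).card := by
  rw [← card_product]
  refine card_le_card_of_injOn (fun x => (x 0, x 1)) ?_ ?_
  · intro x hx
    exact mem_coe.2 (mem_product.2 ⟨mem_image_of_mem _ hx, mem_image_of_mem _ hx⟩)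
  · intro x _ y _ h
    simp only [Prod.mk.injEq] at h
    funext i
    fin_cases i
    · exact h.1
    · exact h.2

/-- The projections of an optimal set with `c r` points. -/
theorem optimal_type {l u : Fin 2 → ℤ} (hl : l ≤ 0) (hu : 0 ≤ u) {a b : ℕ} (ha : u 0 = l 0 + a)
    (hb : u 1 = l 1 + b) {c r : ℕ} (hc : 1 ≤ c) (hr : 1 ≤ r) {S : Finset (Fin 2 → ℤ)}
    (hS : S.card = c * r) (hopt : boundary (box l u) S = minBoundary (box l u) (c * r)) :
    b * (shadow 0 S).card + a * (shadow 1 S).card ≤ b * c + a * r ∧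
      c * r ≤ (shadow 0 S).card * (shadow 1 S).card := by
  have hne : S.Nonempty := by
    rw [← card_pos, hS]
    positivity
  refine ⟨?_, hS ▸ card_le_shadows S⟩
  have h1 := thick_ge (l := l) (u := u) ha hb hne
  have h2 := boundary_add_card hl hu S
  have h3 := thick_rect (l := l) (u := u) ha hb hc hr
  have h4 := boundary_add_card hl hu (rect c r)
  rw [card_rect] at h4
  have h5 : minBoundary (box l u) (c * r) ≤ boundary (box l u) (rect c r) :=
    Nat.sInf_le ⟨rect c r, card_rect c r, rfl⟩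
  rw [hS] at h1 h2
  nlinarith

end Pool.Agent.K4H23.NV
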