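import Pool.Agent.K4H23.NV.Box

/-!
# Optimal sets for a box of neighbours which is not a square are not nested
-/

set_option autoImplicit false

namespace Pool.Agent.K4H23.NV

open Finset

theorem closure_box {l u : Fin 2 → ℤ} (hl : l ≤ 0) (hu : 0 ≤ u) (h : ∀ i, l i < u i) :
    AddSubgroup.closure (box l u : Set (Fin 2 → ℤ)) = ⊤ := by
  have key : ∀ i : Fin 2, Pi.single i (1 : ℤ) ∈
      AddSubgroup.closure (box l u : Set (Fin 2 → ℤ)) := by
    intro i
    have hi := h i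
    have hli : l i ≤ 0 := hl i
    have hui : 0 ≤ u i := hu i
    by_cases hpos : 0 < u i
    · refine AddSubgroup.subset_closure (mem_coe.2 (mem_erase.2 ⟨?_, mem_Icc.2 ⟨?_, ?_⟩⟩))
      · intro h0
        have := congrFun h0 i
        simp at this
      · intro j
        by_cases hj : j = i
        · subst hj; rw [Pi.single_eq_same]; exact (by omega : l j ≤ 1)
        · rw [Pi.single_eq_of_ne hj]; exact hl j
      · intro j
        by_cases hj : j = i
        · subst hj; rw [Pi.single_eq_same]; exact (by omega : (1 : ℤ) ≤ u j)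
        · rw [Pi.single_eq_of_ne hj]; exact hu j
    · have hneg : Pi.single i (-1 : ℤ) ∈ AddSubgroup.closure (box l u : Set (Fin 2 → ℤ)) := by
        refine AddSubgroup.subset_closure (mem_coe.2 (mem_erase.2 ⟨?_, mem_Icc.2 ⟨?_, ?_⟩⟩))
        · intro h0
          have := congrFun h0 i
          simp at this
        · intro j
          by_cases hj : j = i
          · subst hj; rw [Pi.single_eq_same]; exact (by omega : l j ≤ -1)
          · rw [Pi.single_eq_of_ne hj]; exact hl j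
        · intro j
          by_cases hj : j = i
          · subst hj; rw [Pi.single_eq_same]; exact (by omega : (-1 : ℤ) ≤ u j)
          · rw [Pi.single_eq_of_ne hj]; exact hu j
      have := AddSubgroup.neg_mem _ hneg
      rwa [← Pi.single_neg, neg_neg] at this
  rw [eq_top_iff]
  intro x _
  have hx : x = x 0 • (Pi.single 0 (1 : ℤ) : Fin 2 → ℤ) + x 1 • (Pi.single 1 (1 : ℤ) : Fin 2 → ℤ) := by
    funext i
    fin_cases i <;> simp
  rw [hx]
  exact AddSubgroup.add_mem _ (AddSubgroup.zsmul_mem _ (key 0) _)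
    (AddSubgroup.zsmul_mem _ (key 1) _)

/-- `S` has the smallest vertex boundary among the sets with the same number of points. -/
def Optimal (U S : Finset (Fin 2 → ℤ)) : Prop := boundary U S = minBoundary U S.card

/-- The case in which the second side of the box is longer. -/
theorem three_sizes {a b g : ℕ} (ha : 1 ≤ a) (hab : a < b) (hg : 1 ≤ g) (cop : Nat.Coprime a b)
    {m : ℕ} (hm : a * b ≤ m) {c r : Finset (Fin 2 → ℤ) → ℕ}
    (hmono : ∀ S T : Finset (Fin 2 → ℤ), S ⊆ T → r S ≤ r T)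
    {l u : Fin 2 → ℤ}
    (htype : ∀ (c' r' : ℕ) (S : Finset (Fin 2 → ℤ)), 1 ≤ c' → 1 ≤ r' → S.card = c' * r' →
      boundary (box l u) S = minBoundary (box l u) (c' * r') →
      (g * b) * c S + (g * a) * r S ≤ (g * b) * c' + (g * a) * r' ∧ c' * r' ≤ c S * r S)
    {S₁ S₂ S₃ : Finset (Fin 2 → ℤ)} (h₁ : S₁.card = a * m * (b * m + 1))
    (h₂ : S₂.card = a * m * (b * (m + 1))) (h₃ : S₃.card = a * (m + 1) * (b * (m + 1) - 1))
    (h12 : S₁ ⊆ S₂) (h23 : S₂ ⊆ S₃) (o₁ : Optimal (box l u) S₁) (o₂ : Optimal (box l u) S₂)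
    (o₃ : Optimal (box l u) S₃) : False := by
  have hm1 : 1 ≤ m := le_trans (Nat.mul_pos ha (by omega)) hm
  have hb1 : 1 ≤ b * (m + 1) - 1 := by
    have : 2 * 2 ≤ b * (m + 1) := Nat.mul_le_mul (by omega) (by omega)
    omega
  have ham : 1 ≤ a * m := Nat.mul_pos ha hm1
  have ham' : 1 ≤ a * (m + 1) := Nat.mul_pos ha (by omega)
  unfold Optimal at o₁ o₂ o₃
  rw [h₁] at o₁
  rw [h₂] at o₂
  rw [h₃] at o₃
  obtain ⟨q₁, p₁⟩ := htype _ _ S₁ ham (by omega) h₁ o₁
  obtain ⟨q₂, p₂⟩ := htype _ _ S₂ ham (Nat.mul_pos (by omega) (by omega)) h₂ o₂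
  obtain ⟨q₃, p₃⟩ := htype _ _ S₃ ham' hb1 h₃ o₃
  have red : ∀ x y z w : ℕ, (g * b) * x + (g * a) * y ≤ (g * b) * z + (g * a) * w →
      b * x + a * y ≤ b * z + a * w := by
    intro x y z w h
    refine Nat.le_of_mul_le_mul_left (c := g) ?_ hg
    calc g * (b * x + a * y) = (g * b) * x + (g * a) * y := by ring
      _ ≤ _ := h
      _ = _ := by ring
  have q₁' := red _ _ _ _ q₁
  have q₂' := red _ _ _ _ q₂
  have q₃' := red _ _ _ _ q₃
  have hcast : ((b * (m + 1) - 1 : ℕ) : ℤ) = (b : ℤ) * ((m : ℤ) + 1) - 1 := by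
    rw [Nat.cast_sub (by omega)]
    push_cast
    ring
  refine arith (a := (a : ℤ)) (b := (b : ℤ)) (m := (m : ℤ)) (c₁ := (c S₁ : ℤ))
    (r₁ := (r S₁ : ℤ)) (c₂ := (c S₂ : ℤ)) (r₂ := (r S₂ : ℤ)) (c₃ := (c S₃ : ℤ))
    (r₃ := (r S₃ : ℤ)) (by exact_mod_cast ha) (by exact_mod_cast hab)
    (Nat.isCoprime_iff_coprime.2 cop) (by exact_mod_cast hm) (by positivity) (by positivity)
    (by positivity) (by exact_mod_cast q₁') (by exact_mod_cast p₁) (by exact_mod_cast q₂')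
    (by exact_mod_cast p₂) ?_ ?_ (by exact_mod_cast hmono _ _ h12)
    (by exact_mod_cast hmono _ _ h23)
  · rw [← hcast]
    exact_mod_cast q₃'
  · rw [← hcast]
    exact_mod_cast p₃

/-- For every `N` there are three sizes `n₁ < n₂ < n₃` beyond `N` without optimal sets
`S₁ ⊆ S₂ ⊆ S₃` of these sizes. -/
theorem exists_three {l u : Fin 2 → ℤ} (hl : l ≤ 0) (hu : 0 ≤ u) (h : ∀ i, l i < u i)
    (hne : u 0 - l 0 ≠ u 1 - l 1) (N : ℕ) : ∃ n₁ n₂ n₃ : ℕ, N ≤ n₁ ∧ n₁ < n₂ ∧ n₂ < n₃ ∧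
      ∀ S₁ S₂ S₃ : Finset (Fin 2 → ℤ), S₁.card = n₁ → S₂.card = n₂ → S₃.card = n₃ → S₁ ⊆ S₂ →
        S₂ ⊆ S₃ → ¬ (Optimal (box l u) S₁ ∧ Optimal (box l u) S₂ ∧ Optimal (box l u) S₃) := by
  obtain ⟨a, ha⟩ : ∃ a : ℕ, u 0 = l 0 + a := ⟨(u 0 - l 0).toNat, by have := h 0; omega⟩
  obtain ⟨b, hb⟩ : ∃ b : ℕ, u 1 = l 1 + b := ⟨(u 1 - l 1).toNat, by have := h 1; omega⟩
  have ha1 : 1 ≤ a := by have := h 0; omega
  have hb1 : 1 ≤ b := by have := h 1; omega
  have hab : a ≠ b := by omega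
  -- the common part
  have sizes : ∀ a b : ℕ, 1 ≤ a → a < b → N ≤ a * (N + a * b) * (b * (N + a * b) + 1) ∧
      a * (N + a * b) * (b * (N + a * b) + 1) < a * (N + a * b) * (b * (N + a * b + 1)) ∧
      a * (N + a * b) * (b * (N + a * b + 1)) <
        a * (N + a * b + 1) * (b * (N + a * b + 1) - 1) := by
    intro a b ha hab
    set m := N + a * b with hm
    have hm1 : 1 ≤ m := le_trans (Nat.mul_pos ha (by omega)) (Nat.le_add_left _ _)
    have ham : 1 ≤ a * m := Nat.mul_pos ha hm1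
    refine ⟨?_, ?_, ?_⟩
    · calc N ≤ m := Nat.le_add_right _ _
        _ ≤ a * m := Nat.le_mul_of_pos_left _ ha
        _ ≤ _ := Nat.le_mul_of_pos_right _ (by omega)
    · refine Nat.mul_lt_mul_of_pos_left ?_ ham
      have e : b * (m + 1) = b * m + b := by ring
      omega
    · obtain ⟨k, rfl⟩ : ∃ k, b = k + 2 := ⟨b - 2, by omega⟩
      have e : (k + 2) * (m + 1) - 1 = (k + 2) * m + (k + 1) := by
        have : (k + 2) * (m + 1) = (k + 2) * m + (k + 1) + 1 := by ring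
        omega
      rw [e]
      nlinarith
  rcases lt_or_gt_of_ne hab with hlt | hlt
  · obtain ⟨g, a', b', hg, cop, ea, eb⟩ : ∃ g a' b' : ℕ, 1 ≤ g ∧ Nat.Coprime a' b' ∧
        a = g * a' ∧ b = g * b' := by
      obtain ⟨g, a', b', hgpos, hcop, ea, eb⟩ := Nat.exists_coprime' (m := a) (n := b)
        (Nat.gcd_pos_of_pos_left _ ha1)
      exact ⟨g, a', b', hgpos, hcop, by rw [Nat.mul_comm]; exact ea, by rw [Nat.mul_comm]; exact eb⟩
    subst ea eb
    have ha' : 1 ≤ a' := Nat.pos_of_mul_pos_left ha1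
    have hlt' : a' < b' := Nat.lt_of_mul_lt_mul_left hlt
    obtain ⟨s1, s2, s3⟩ := sizes a' b' ha' hlt'
    refine ⟨_, _, _, s1, s2, s3, fun S₁ S₂ S₃ c1 c2 c3 h12 h23 ⟨o1, o2, o3⟩ => ?_⟩
    refine three_sizes ha' hlt' hg cop (m := N + a' * b') (Nat.le_add_left _ _)
      (c := fun S => (shadow 0 S).card) (r := fun S => (shadow 1 S).card)
      (fun S T hST => card_le_card (shadow_mono hST)) (l := l) (u := u) ?_ c1 c2 c3 h12 h23
      o1 o2 o3
    intro c' r' S hc hr hS ho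
    exact optimal_type hl hu ha hb hc hr hS ho
  · obtain ⟨g, a', b', hg, cop, ea, eb⟩ : ∃ g a' b' : ℕ, 1 ≤ g ∧ Nat.Coprime a' b' ∧
        a = g * a' ∧ b = g * b' := by
      obtain ⟨g, a', b', hgpos, hcop, ea, eb⟩ := Nat.exists_coprime' (m := a) (n := b)
        (Nat.gcd_pos_of_pos_left _ ha1)
      exact ⟨g, a', b', hgpos, hcop, by rw [Nat.mul_comm]; exact ea, by rw [Nat.mul_comm]; exact eb⟩
    subst ea eb
    have hb' : 1 ≤ b' := Nat.pos_of_mul_pos_left hb1
    have hlt' : b' < a' := Nat.lt_of_mul_lt_mul_left hlt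
    obtain ⟨s1, s2, s3⟩ := sizes b' a' hb' hlt'
    refine ⟨_, _, _, s1, s2, s3, fun S₁ S₂ S₃ c1 c2 c3 h12 h23 ⟨o1, o2, o3⟩ => ?_⟩
    refine three_sizes hb' hlt' hg cop.symm (m := N + b' * a') (Nat.le_add_left _ _)
      (c := fun S => (shadow 1 S).card) (r := fun S => (shadow 0 S).card)
      (fun S T hST => card_le_card (shadow_mono hST)) (l := l) (u := u) ?_ c1 c2 c3 h12 h23
      o1 o2 o3
    intro c' r' S hc hr hS ho
    rw [Nat.mul_comm c' r'] at hS ho
    obtain ⟨q, p⟩ := optimal_type hl hu ha hb hr hc hS ho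
    refine ⟨by linarith, ?_⟩
    calc c' * r' = r' * c' := Nat.mul_comm _ _
      _ ≤ _ := p
      _ = _ := Nat.mul_comm _ _

end Pool.Agent.K4H23.NV
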