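import Pool.Agent.K4H23.NV.Axis

set_option autoImplicit false

open Finset

namespace Pool.Agent.K4H23.NV

variable {m : ℕ}

lemma A_bound {s : ℤ} (hs : 14 < s ∨ s < -14) : A ∩ A.image (s + ·) = ∅ := by
  rw [eq_empty_iff_forall_notMem]
  intro a ha
  rw [mem_inter] at ha
  obtain ⟨c, hc, h⟩ := mem_image.1 ha.2
  have h1 : ∀ a ∈ A, -7 ≤ a ∧ a ≤ 7 := by decide
  have h2 := h1 a ha.1
  have h3 := h1 c hc
  omega

lemma A_six {s : ℤ} (h0 : s ≠ 0) (h4 : s ≠ 4) (h4' : s ≠ -4) :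
    (A ∩ A.image (s + ·)).card ≤ 6 := by
  by_cases hs : 14 < s ∨ s < -14
  · rw [A_bound hs]; simp
  · push Not at hs
    obtain ⟨h1, h2⟩ := hs
    have key : ∀ t ∈ Finset.Icc (-14 : ℤ) 14, t ≠ 0 → t ≠ 4 → t ≠ -4 →
        (A ∩ A.image (t + ·)).card ≤ 6 := by decide
    exact key s (Finset.mem_Icc.2 ⟨h2, h1⟩) h0 h4 h4'

lemma A_eight {s : ℤ} (h0 : s ≠ 0) (h4 : s ≠ 4) :
    ((A ∩ A.image (s + ·)) ∪ ((A ∩ A.image (s - 4 + ·)).image (4 + ·))).card ≤ 8 := by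
  by_cases hs : 18 < s ∨ s < -14
  · rw [A_bound (by omega), A_bound (by omega)]; simp
  · push Not at hs
    obtain ⟨h1, h2⟩ := hs
    have key : ∀ t ∈ Finset.Icc (-14 : ℤ) 18, t ≠ 0 → t ≠ 4 →
        ((A ∩ A.image (t + ·)) ∪ ((A ∩ A.image (t - 4 + ·)).image (4 + ·))).card ≤ 8 := by decide
    exact key s (Finset.mem_Icc.2 ⟨h2, h1⟩) h0 h4

/-- a vector is on the axis or not -/
lemma axis_or (b : Fin (m + 1) → ℤ) : b = ax (b 0) ∨ ∃ i : Fin (m + 1), i ≠ 0 ∧ b i ≠ 0 := by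
  by_cases h : ∃ i : Fin (m + 1), i ≠ 0 ∧ b i ≠ 0
  · exact Or.inr h
  · left
    push Not at h
    ext i
    by_cases hi : i = 0
    · subst hi; simp [ax]
    · rw [ax_apply hi, h i hi]

lemma r_le_six {b : Fin (m + 1) → ℤ} (h0 : b ≠ 0) (h4 : b ≠ ax 4) (h4' : b ≠ ax (-4)) :
    r b ≤ 6 := by
  rcases axis_or b with h | ⟨i, hi, hb⟩
  · have hs : b 0 ≠ 0 := fun h1 => h0 (by rw [h, h1, ax_zero])
    rw [h, r_axis hs]
    exact A_six hs (fun h1 => h4 (by rw [h, h1])) (fun h1 => h4' (by rw [h, h1]))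
  · exact (r_off hi hb).trans (by norm_num)

lemma r_four : r (ax 4 : Fin (m + 1) → ℤ) = 7 := by
  rw [r_axis (by norm_num)]
  decide

lemma r_one : r (ax 1 : Fin (m + 1) → ℤ) = 6 := by
  rw [r_axis (by norm_num)]
  decide

lemma T_zero : (T 0 : Finset (Fin (m + 1) → ℤ)) = U0 m := by
  ext x; rw [mem_T, sub_zero]

lemma T_image (x y : Fin (m + 1) → ℤ) : T (x + y) = (T y).image (x + ·) := by
  ext z
  rw [mem_T, mem_image]
  constructor
  · intro h
    exact ⟨z - x, mem_T.2 (by rwa [sub_sub]), by simp⟩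
  · rintro ⟨u, hu, rfl⟩
    rw [mem_T] at hu
    have : x + u - (x + y) = u - y := by abel
    rwa [this]

/-- the third translate meets the first two in at most eight points -/
lemma meet_le {b : Fin (m + 1) → ℤ} (h0 : b ≠ 0) (h4 : b ≠ ax 4) :
    ((T 0 ∪ T (ax 4)) ∩ T b).card ≤ 8 := by
  rcases axis_or b with h | ⟨i, hi, hb⟩
  · have hs : b 0 ≠ 0 := fun h1 => h0 (by rw [h, h1, ax_zero])
    have hs4 : b 0 ≠ 4 := fun h1 => h4 (by rw [h, h1])
    have hsub : (T 0 ∪ T (ax 4)) ∩ T b ⊆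
        ((A ∩ A.image (b 0 + ·)) ∪ ((A ∩ A.image (b 0 - 4 + ·)).image (4 + ·))).image ax := by
      intro x hx
      rw [mem_inter, mem_union] at hx
      obtain ⟨h1 | h1, h2⟩ := hx
      · have h3 : x ∈ U0 m ∩ T (ax (b 0)) := by
          rw [← T_zero, ← h]; exact mem_inter.2 ⟨h1, h2⟩
        exact image_subset_image subset_union_left (inter_axis hs h3)
      · have h3 : x ∈ T (ax 4) ∩ T b := mem_inter.2 ⟨h1, h2⟩
        rw [inter_T] at h3
        obtain ⟨u, hu, rfl⟩ := mem_image.1 h3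
        rw [h, ← ax_sub] at hu
        have h5 := inter_axis (s := b 0 - 4) (by omega) hu
        obtain ⟨a, ha, rfl⟩ := mem_image.1 h5
        refine mem_image.2 ⟨4 + a, mem_union.2 (Or.inr (mem_image.2 ⟨a, ha, rfl⟩)), ?_⟩
        exact ax_add _ _
    exact (card_le_card hsub).trans (card_image_le.trans (A_eight hs hs4))
  · rw [union_inter_distrib_right]
    refine (card_union_le _ _).trans ?_
    rw [card_inter_T, card_inter_T, sub_zero]
    have h1 := r_off hi hb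
    have h2 : (b - ax 4 : Fin (m + 1) → ℤ) i ≠ 0 := by simpa [ax_apply hi] using hb
    have h3 := r_off hi h2
    omega

/-- the translates for `0, 1, 2` -/
lemma meet_ge : 10 ≤ ((T 0 ∪ T (ax 1 : Fin (m + 1) → ℤ)) ∩ T (ax 2)).card := by
  have hsub : ((A ∪ A.image (1 + ·)) ∩ A.image (2 + ·)).image ax ⊆
      (T 0 ∪ T (ax 1 : Fin (m + 1) → ℤ)) ∩ T (ax 2) := by
    intro x hx
    obtain ⟨a, ha, rfl⟩ := mem_image.1 hx
    rw [mem_inter, mem_union] at ha ⊢
    have hT : ∀ s : ℤ, a ∈ A.image (s + ·) → (ax a : Fin (m + 1) → ℤ) ∈ T (ax s) := by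
      intro s hs
      obtain ⟨c, hc, h⟩ := mem_image.1 hs
      rw [mem_T, ← ax_sub, mem_U0]
      refine Or.inl ⟨c, hc, ?_⟩
      congr 1
      omega
    refine ⟨?_, hT 2 ha.2⟩
    rcases ha.1 with h | h
    · left
      rw [T_zero, mem_U0]
      exact Or.inl ⟨a, h, rfl⟩
    · exact Or.inr (hT 1 h)
  refine le_trans ?_ (card_le_card hsub)
  rw [card_image_of_injective _ axInj]
  decide

end Pool.Agent.K4H23.NV
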