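import Mathlib

/-!
# The vertex boundary in Cayley graphs of `ℤ ^ d`: definitions
-/

set_option autoImplicit false

namespace Pool.Agent.K4H23.NV

/-- The vertex boundary of the finite set `S` in the directed Cayley graph of `ℤ ^ d` with the
generators `U`: the number of the points `x + u` outside `S`, where `x` is in `S` and `u` is in `U`. -/
def boundary {d : ℕ} (U S : Finset (Fin d → ℤ)) : ℕ :=
  ((S.biUnion fun x => U.image fun u => x + u) \ S).card

/-- The smallest vertex boundary of a set of `n` points of `ℤ ^ d`. -/
noncomputable def minBoundary {d : ℕ} (U : Finset (Fin d → ℤ)) (n : ℕ) : ℕ :=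
  sInf {k | ∃ S : Finset (Fin d → ℤ), S.card = n ∧ boundary U S = k}

end Pool.Agent.K4H23.NV
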