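import Pool.Agent.K4H23.NV.Count

set_option autoImplicit false

open Finset

namespace Pool.Agent.K4H23.NV

variable {m : ℕ}

/-- the generators -/
def U (m : ℕ) : Finset (Fin (m + 1) → ℤ) := (U0 m).erase 0

lemma zero_mem_U0 : (0 : Fin (m + 1) → ℤ) ∈ U0 m :=
  mem_U0.2 (Or.inl ⟨0, by decide, ax_zero⟩)

lemma biUnion_T (S : Finset (Fin (m + 1) → ℤ)) :
    S.biUnion T = (S.biUnion fun x => (U m).image fun u => x + u) ∪ S := by
  ext y
  simp only [mem_biUnion, mem_union, mem_image, mem_T]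
  constructor
  · rintro ⟨x, hx, h⟩
    by_cases h0 : y - x = 0
    · right
      rw [sub_eq_zero] at h0
      rwa [h0]
    · left
      exact ⟨x, hx, y - x, mem_erase.2 ⟨h0, h⟩, by simp⟩
  · rintro (⟨x, hx, u, hu, rfl⟩ | hy)
    · exact ⟨x, hx, by simpa using mem_of_mem_erase hu⟩
    · exact ⟨y, hy, by rw [sub_self]; exact zero_mem_U0⟩

lemma boundary_add (S : Finset (Fin (m + 1) → ℤ)) :
    boundary (U m) S + S.card = (S.biUnion T).card := by
  rw [biUnion_T, boundary, card_sdiff_add_card]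

lemma card_pair_biUnion {x y : Fin (m + 1) → ℤ} :
    (({x, y} : Finset (Fin (m + 1) → ℤ)).biUnion T).card + r (y - x) = 2 * (U0 m).card := by
  have h1 : ({x, y} : Finset (Fin (m + 1) → ℤ)).biUnion T = T x ∪ T y := by
    rw [biUnion_insert, singleton_biUnion]
  rw [h1, ← card_inter_T, card_union_add_card_inter, card_T, card_T]
  ring

lemma biUnion_three (x y z : Fin (m + 1) → ℤ) :
    ({x, y, z} : Finset (Fin (m + 1) → ℤ)).biUnion T = (T x ∪ T y) ∪ T z := by
  rw [biUnion_insert, biUnion_insert, singleton_biUnion, union_assoc]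

/-- a set of three points with two points at distance four -/
lemma three_ge {x z : Fin (m + 1) → ℤ} (h0 : z ≠ x) (h4 : z ≠ x + ax 4) :
    3 * (U0 m).card ≤ ((T x ∪ T (x + ax 4)) ∪ T z).card + 15 := by
  have e1 : T x = (T 0).image (x + ·) := by rw [← T_image, add_zero]
  have e2 : T (x + ax 4) = (T (ax 4)).image (x + ·) := T_image _ _
  have e3 : T z = (T (z - x)).image (x + ·) := by rw [← T_image]; congr 1; abel
  have e4 : (T x ∪ T (x + ax 4)) ∩ T z = ((T 0 ∪ T (ax 4)) ∩ T (z - x)).image (x + ·) := by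
    rw [e1, e2, e3, ← image_union, ← image_inter _ _ (add_right_injective x)]
  have h1 : ((T x ∪ T (x + ax 4)) ∩ T z).card ≤ 8 := by
    rw [e4, card_image_of_injective _ (add_right_injective x)]
    refine meet_le (sub_ne_zero.2 h0) fun h => h4 ?_
    rw [← h]; abel
  have h2 := card_union_add_card_inter (T x ∪ T (x + ax 4)) (T z)
  have h3 := card_union_add_card_inter (T x) (T (x + ax 4))
  rw [card_inter_T, add_sub_cancel_left, r_four, card_T, card_T] at h3
  rw [card_T] at h2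
  omega

lemma three_le : ((T 0 ∪ T (ax 1 : Fin (m + 1) → ℤ)) ∪ T (ax 2)).card + 16 ≤
    3 * (U0 m).card := by
  have h2 := card_union_add_card_inter (T 0 ∪ T (ax 1 : Fin (m + 1) → ℤ)) (T (ax 2))
  have h3 := card_union_add_card_inter (T 0) (T (ax 1 : Fin (m + 1) → ℤ))
  rw [card_inter_T, sub_zero, r_one, card_T, card_T] at h3
  rw [card_T] at h2
  have h4 := meet_ge (m := m)
  omega

lemma minBoundary_le (S : Finset (Fin (m + 1) → ℤ)) :
    minBoundary (U m) S.card ≤ boundary (U m) S := Nat.sInf_le ⟨S, rfl, rfl⟩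

lemma ax_ne {a b : ℤ} (h : a ≠ b) : (ax a : Fin (m + 1) → ℤ) ≠ ax b := fun h' => h (ax_inj h')

/-- if two points are at distance four, the three are not optimal -/
lemma not_opt {x z : Fin (m + 1) → ℤ} (h0 : z ≠ x) (h4 : z ≠ x + ax 4)
    (S : Finset (Fin (m + 1) → ℤ)) (hS : S = {x, x + ax 4, z}) :
    minBoundary (U m) 3 < boundary (U m) S := by
  have hx : x ≠ x + ax 4 := fun h => by
    have h1 : (ax 4 : Fin (m + 1) → ℤ) = ax 0 := by
      rw [ax_zero]; simpa using h.symm
    exact ax_ne (by norm_num) h1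
  have hcard : S.card = 3 := by
    rw [hS, card_eq_three]
    exact ⟨x, x + ax 4, z, hx, h0.symm, h4.symm, rfl⟩
  have h1 := boundary_add S
  rw [hcard, hS, biUnion_three] at h1
  have h2 := three_ge h0 h4
  have hc : ({0, ax 1, ax 2} : Finset (Fin (m + 1) → ℤ)).card = 3 := by
    rw [card_eq_three]
    refine ⟨0, ax 1, ax 2, ?_, ?_, ax_ne (by norm_num), rfl⟩
    · rw [← ax_zero]; exact ax_ne (by norm_num)
    · rw [← ax_zero]; exact ax_ne (by norm_num)
  have h3 := boundary_add ({0, ax 1, ax 2} : Finset (Fin (m + 1) → ℤ))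
  rw [hc, biUnion_three] at h3
  have h4 := three_le (m := m)
  have h5 := minBoundary_le ({0, ax 1, ax 2} : Finset (Fin (m + 1) → ℤ))
  rw [hc] at h5
  rw [← hS] at h1
  omega

/-- an optimal pair is at distance four -/
lemma opt_pair {x y : Fin (m + 1) → ℤ} (hxy : x ≠ y)
    (h : boundary (U m) {x, y} ≤ minBoundary (U m) 2) : y = x + ax 4 ∨ x = y + ax 4 := by
  have hc : ({0, ax 4} : Finset (Fin (m + 1) → ℤ)).card = 2 := by
    refine card_pair ?_
    rw [← ax_zero]; exact ax_ne (by norm_num)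
  have h1 := minBoundary_le ({0, ax 4} : Finset (Fin (m + 1) → ℤ))
  rw [hc] at h1
  have h2 := boundary_add ({0, ax 4} : Finset (Fin (m + 1) → ℤ))
  rw [hc] at h2
  have h3 := card_pair_biUnion (x := 0) (y := (ax 4 : Fin (m + 1) → ℤ))
  rw [sub_zero, r_four] at h3
  have h4 := boundary_add ({x, y} : Finset (Fin (m + 1) → ℤ))
  rw [card_pair hxy] at h4
  have h5 := card_pair_biUnion (x := x) (y := y)
  by_contra hcon
  push Not at hcon
  have h6 : r (y - x) ≤ 6 := by
    refine r_le_six (sub_ne_zero.2 hxy.symm) (fun h => hcon.1 ?_) fun h => hcon.2 ?_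
    · rw [← h]; abel
    · have h7 : (ax 4 : Fin (m + 1) → ℤ) = - ax (-4) := by
        rw [eq_neg_iff_add_eq_zero, ← ax_add, ← ax_zero]; norm_num
      rw [h7, ← h]; abel
  omega

/-- **No nested optimal sets.** -/
theorem not_nested (w : ℕ → (Fin (m + 1) → ℤ)) (hw : Function.Injective w) :
    minBoundary (U m) 2 < boundary (U m) ((range 2).image w) ∨
      minBoundary (U m) 3 < boundary (U m) ((range 3).image w) := by
  by_contra hcon
  push Not at hcon
  obtain ⟨h2, h3⟩ := hcon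
  have e2 : (range 2).image w = {w 0, w 1} := by
    ext x
    simp only [mem_image, mem_range, mem_insert, mem_singleton]
    constructor
    · rintro ⟨n, hn, rfl⟩
      interval_cases n <;> simp
    · rintro (rfl | rfl)
      · exact ⟨0, by norm_num, rfl⟩
      · exact ⟨1, by norm_num, rfl⟩
  have e3 : (range 3).image w = {w 0, w 1, w 2} := by
    ext x
    simp only [mem_image, mem_range, mem_insert, mem_singleton]
    constructor
    · rintro ⟨n, hn, rfl⟩
      interval_cases n <;> simp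
    · rintro (rfl | rfl | rfl)
      · exact ⟨0, by norm_num, rfl⟩
      · exact ⟨1, by norm_num, rfl⟩
      · exact ⟨2, by norm_num, rfl⟩
  rw [e2] at h2
  rw [e3] at h3
  have h01 : w 0 ≠ w 1 := fun h => by have := hw h; omega
  have h02 : w 2 ≠ w 0 := fun h => by have := hw h; omega
  have h12 : w 2 ≠ w 1 := fun h => by have := hw h; omega
  rcases opt_pair h01 h2 with h | h
  · have h5 := not_opt h02 (by rwa [← h]) {w 0, w 1, w 2} (by rw [← h])
    omega
  · have h5 := not_opt h12 (by rwa [← h]) {w 0, w 1, w 2} (by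
      rw [← h]; ext x; simp only [mem_insert, mem_singleton]; tauto)
    omega

lemma closure_U : AddSubgroup.closure (U m : Set (Fin (m + 1) → ℤ)) = ⊤ := by
  rw [eq_top_iff]
  intro x _
  have hU : ∀ y ∈ U0 m, y ≠ 0 → y ∈ AddSubgroup.closure (U m : Set (Fin (m + 1) → ℤ)) :=
    fun y hy h0 => AddSubgroup.subset_closure (mem_coe.2 (mem_erase.2 ⟨h0, hy⟩))
  have hax : (ax 1 : Fin (m + 1) → ℤ) ∈ AddSubgroup.closure (U m : Set (Fin (m + 1) → ℤ)) := by
    have h1 : (ax 1 : Fin (m + 1) → ℤ) = ax 3 - ax 2 := by rw [← ax_sub]; norm_num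
    rw [h1]
    refine AddSubgroup.sub_mem _ (hU _ (mem_U0.2 (Or.inl ⟨3, by decide, rfl⟩)) ?_)
      (hU _ (mem_U0.2 (Or.inl ⟨2, by decide, rfl⟩)) ?_)
    · rw [← ax_zero]; exact ax_ne (by norm_num)
    · rw [← ax_zero]; exact ax_ne (by norm_num)
  have hs : ∀ i : Fin (m + 1), (Pi.single i 1 : Fin (m + 1) → ℤ) ∈
      AddSubgroup.closure (U m : Set (Fin (m + 1) → ℤ)) := by
    intro i
    by_cases hi : i = 0
    · subst hi; exact hax
    · refine hU _ (mem_U0.2 (Or.inr ⟨i, hi, Or.inl rfl⟩)) fun h => ?_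
      have := congrFun h i
      simp at this
  have hx : x = ∑ i, x i • (Pi.single i 1 : Fin (m + 1) → ℤ) := by
    ext j
    simp [Finset.sum_apply, Pi.single_apply]
  rw [hx]
  exact AddSubgroup.sum_mem _ fun i _ => AddSubgroup.zsmul_mem _ (hs i) _

lemma neg_mem_U {u : Fin (m + 1) → ℤ} (hu : u ∈ U m) : -u ∈ U m := by
  rw [U, mem_erase] at hu ⊢
  refine ⟨neg_ne_zero.2 hu.1, ?_⟩
  rcases mem_U0.1 hu.2 with ⟨a, ha, h⟩ | ⟨i, hi, h | h⟩
  · refine mem_U0.2 (Or.inl ⟨-a, ?_, ?_⟩)
    · have : ∀ a ∈ A, -a ∈ A := by decide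
      exact this a ha
    · rw [← h]
      ext j
      by_cases hj : j = 0
      · subst hj; simp [ax]
      · simp [ax_apply hj]
  · refine mem_U0.2 (Or.inr ⟨i, hi, Or.inr ?_⟩)
    rw [h, Pi.single_neg]
  · refine mem_U0.2 (Or.inr ⟨i, hi, Or.inl ?_⟩)
    rw [h, Pi.single_neg, neg_neg]

end Pool.Agent.K4H23.NV
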