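import Pool.Agent.K4H23.NV.Box

/-!
# Optimal sets for a square of neighbours are nested
-/

set_option autoImplicit false

namespace Pool.Agent.K4H23.NV

open Finset

/-- The lower left corner of the square number `k`. -/
def lo (k : ℕ) : ℤ := -(((k : ℤ) - 1) / 2)

/-- The point number `j` in the frame around the square number `k`. -/
def pt (k j : ℕ) : Fin 2 → ℤ :=
  if k % 2 = 1 then
    if j < k then ![lo k + k, lo k + j] else ![lo k + ((j : ℤ) - k), lo k + k]
  else
    if j < k then ![lo k - 1, lo k + j] else ![lo k - 1 + ((j : ℤ) - k), lo k - 1]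

/-- The spiral. -/
def spiral (n : ℕ) : Fin 2 → ℤ := pt (Nat.sqrt n) (n - Nat.sqrt n * Nat.sqrt n)

/-- The square number `k`, with `k ^ 2` points. -/
def InSq (k : ℕ) (z : Fin 2 → ℤ) : Prop :=
  lo k ≤ z 0 ∧ z 0 ≤ lo k + k - 1 ∧ lo k ≤ z 1 ∧ z 1 ≤ lo k + k - 1

theorem pt_cases (k j : ℕ) :
    (k % 2 = 1 ∧ j < k ∧ pt k j 0 = lo k + k ∧ pt k j 1 = lo k + j) ∨
    (k % 2 = 1 ∧ k ≤ j ∧ pt k j 0 = lo k + ((j : ℤ) - k) ∧ pt k j 1 = lo k + k) ∨
    (k % 2 = 0 ∧ j < k ∧ pt k j 0 = lo k - 1 ∧ pt k j 1 = lo k + j) ∨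
    (k % 2 = 0 ∧ k ≤ j ∧ pt k j 0 = lo k - 1 + ((j : ℤ) - k) ∧ pt k j 1 = lo k - 1) := by
  unfold pt
  split_ifs with h1 h2 h2
  · exact Or.inl ⟨h1, h2, rfl, rfl⟩
  · exact Or.inr (Or.inl ⟨h1, by omega, rfl, rfl⟩)
  · exact Or.inr (Or.inr (Or.inl ⟨by omega, h2, rfl, rfl⟩))
  · exact Or.inr (Or.inr (Or.inr ⟨by omega, by omega, rfl, rfl⟩))

theorem inSq_succ {k j : ℕ} (hj : j ≤ 2 * k) : InSq (k + 1) (pt k j) := by
  have h := pt_cases k j
  simp only [InSq, lo] at h ⊢
  omega

theorem not_inSq {k j : ℕ} : ¬ InSq k (pt k j) := by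
  have h := pt_cases k j
  simp only [InSq, lo] at h ⊢
  omega

theorem inSq_mono_succ {k : ℕ} {z : Fin 2 → ℤ} (h : InSq k z) : InSq (k + 1) z := by
  simp only [InSq, lo] at h ⊢
  omega

theorem inSq_mono {k m : ℕ} (hkm : k ≤ m) {z : Fin 2 → ℤ} (h : InSq k z) : InSq m z := by
  induction m, hkm using Nat.le_induction with
  | base => exact h
  | succ m _ ih => exact inSq_mono_succ ih

theorem pt_inj {k i j : ℕ} (h : pt k i = pt k j) : i = j := by
  have h0 := congrFun h 0
  have h1 := congrFun h 1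
  have hi := pt_cases k i
  have hj := pt_cases k j
  omega

theorem sqrt_spec (n : ℕ) : ∃ k j : ℕ, j ≤ 2 * k ∧ n = k * k + j ∧ Nat.sqrt n = k ∧
    spiral n = pt k j := by
  have h1 := Nat.sqrt_le n
  have h2 := Nat.sqrt_lt_self (n := n)
  have h3 : n ≤ Nat.sqrt n * Nat.sqrt n + Nat.sqrt n + Nat.sqrt n := Nat.sqrt_le_add n
  exact ⟨Nat.sqrt n, n - Nat.sqrt n * Nat.sqrt n, by omega, by omega, rfl, rfl⟩

theorem spiral_injective : Function.Injective spiral := by
  intro m n h
  obtain ⟨k, i, hi, hm, -, hpm⟩ := sqrt_spec m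
  obtain ⟨k', j, hj, hn, -, hpn⟩ := sqrt_spec n
  rw [hpm, hpn] at h
  rcases lt_trichotomy k k' with hk | hk | hk
  · have h1 : InSq (k + 1) (pt k i) := inSq_succ hi
    have h2 : InSq k' (pt k' j) := h ▸ inSq_mono hk h1
    exact absurd h2 not_inSq
  · subst hk
    have := pt_inj h
    omega
  · have h1 : InSq (k' + 1) (pt k' j) := inSq_succ hj
    have h2 : InSq k (pt k i) := h ▸ inSq_mono hk h1
    exact absurd h2 not_inSq

/-- The points before the point number `k ^ 2 + j`. -/
theorem mem_segment {k j : ℕ} (hj : j ≤ 2 * k + 1) {z : Fin 2 → ℤ}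
    (hz : z ∈ (range (k * k + j)).image spiral) : InSq k z ∨ ∃ i, i < j ∧ z = pt k i := by
  obtain ⟨m, hm, rfl⟩ := mem_image.1 hz
  rw [mem_range] at hm
  obtain ⟨k', i, hi, hmk, -, hp⟩ := sqrt_spec m
  rw [hp]
  rcases lt_trichotomy k' k with hk | hk | hk
  · exact Or.inl (inSq_mono hk (inSq_succ hi))
  · subst hk
    exact Or.inr ⟨i, by omega, rfl⟩
  · exfalso
    have : (k + 1) * (k + 1) ≤ k' * k' := Nat.mul_le_mul hk hk
    have h2 : (k + 1) * (k + 1) = k * k + 2 * k + 1 := by ring
    omega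

theorem card_segment (n : ℕ) : ((range n).image spiral).card = n := by
  rw [card_image_of_injective _ spiral_injective, card_range]

/-- The square as a finite set. -/
noncomputable def sq (k : ℕ) : Finset (Fin 2 → ℤ) :=
  Icc ![lo k, lo k] ![lo k + k - 1, lo k + k - 1]

theorem mem_sq {k : ℕ} {z : Fin 2 → ℤ} : z ∈ sq k ↔ InSq k z := by
  rw [sq, mem_Icc, Pi.le_def, Pi.le_def, Fin.forall_fin_two, Fin.forall_fin_two]
  simp only [Matrix.cons_val_zero, Matrix.cons_val_one, InSq]
  tauto

theorem card_sq (k : ℕ) : (sq k).card = k * k := by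
  rw [sq, Pi.card_Icc, Fin.prod_univ_two]
  simp only [Matrix.cons_val_zero, Matrix.cons_val_one, Int.card_Icc]
  have e : (lo k + k - 1 + 1 - lo k).toNat = k := by omega
  rw [e]

theorem segment_sq (k : ℕ) : (range (k * k)).image spiral = sq k := by
  refine eq_of_subset_of_card_le (fun z hz => ?_) (by rw [card_sq, card_segment])
  have h := mem_segment (k := k) (j := 0) (by omega) (z := z) (by simpa using hz)
  rcases h with h | ⟨i, hi, -⟩
  · exact mem_sq.2 h
  · omega

theorem spiral_surjective : Function.Surjective spiral := by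
  intro z
  have hz : z ∈ sq (2 * ((z 0).natAbs + (z 1).natAbs) + 2) := by
    rw [mem_sq]
    simp only [InSq, lo]
    omega
  rw [← segment_sq] at hz
  obtain ⟨n, -, hn⟩ := mem_image.1 hz
  exact ⟨n, hn⟩

variable {l u : Fin 2 → ℤ}

/-- If the sum is contained in the union of two boxes. -/
theorem thick_le_of {S : Finset (Fin 2 → ℤ)} (x₁ x₂ y₁ y₂ x₃ x₄ y₃ y₄ : ℤ)
    (h : ∀ z ∈ S, ∀ s t : ℤ, l 0 ≤ s → s ≤ u 0 → l 1 ≤ t → t ≤ u 1 →
      (x₁ ≤ z 0 + s ∧ z 0 + s ≤ x₂ ∧ y₁ ≤ z 1 + t ∧ z 1 + t ≤ y₂) ∨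
        (x₃ ≤ z 0 + s ∧ z 0 + s ≤ x₄ ∧ y₃ ≤ z 1 + t ∧ z 1 + t ≤ y₄)) :
    (thick l u S).card ≤ (x₂ + 1 - x₁).toNat * (y₂ + 1 - y₁).toNat +
      (x₄ + 1 - x₃).toNat * (y₄ + 1 - y₃).toNat := by
  have hsub : thick l u S ⊆ Icc ![x₁, y₁] ![x₂, y₂] ∪ Icc ![x₃, y₃] ![x₄, y₄] := by
    intro v hv
    obtain ⟨z, hz, hv⟩ := mem_biUnion.1 hv
    obtain ⟨t, ht, rfl⟩ := mem_image.1 hv
    rw [mem_Icc] at ht
    have h1 := h z hz (t 0) (t 1) (ht.1 0) (ht.2 0) (ht.1 1) (ht.2 1)
    simp only [mem_union, mem_Icc, Pi.le_def, Fin.forall_fin_two, Matrix.cons_val_zero,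
      Matrix.cons_val_one, Pi.add_apply]
    tauto
  refine (card_le_card hsub).trans ((card_union_le _ _).trans (le_of_eq ?_))
  rw [Pi.card_Icc, Pi.card_Icc, Fin.prod_univ_two, Fin.prod_univ_two]
  simp only [Matrix.cons_val_zero, Matrix.cons_val_one, Int.card_Icc]

/-- The sum of an initial segment of the spiral and the full box. -/
theorem thick_segment {a : ℕ} (ha : u 0 = l 0 + a) (hb : u 1 = l 1 + a) {k j : ℕ}
    (hj : j ≤ 2 * k) :
    (j = 0 → (thick l u ((range (k * k + j)).image spiral)).card ≤ (k + a) * (k + a)) ∧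
    (1 ≤ j → j ≤ k → (thick l u ((range (k * k + j)).image spiral)).card ≤
      (k + a) * (k + a) + (j + a)) ∧
    (k < j → (thick l u ((range (k * k + j)).image spiral)).card ≤
      (k + 1 + a) * (k + a) + (j - k + a)) := by
  have hmem : ∀ z ∈ (range (k * k + j)).image spiral, InSq k z ∨ ∃ i, i < j ∧ z = pt k i :=
    fun z hz => mem_segment (by omega) hz
  refine ⟨?_, ?_, ?_⟩
  · intro h0
    have h1 := thick_le_of (l := l) (u := u) (S := (range (k * k + j)).image spiral)
      (lo k + l 0) (lo k + k - 1 + u 0) (lo k + l 1) (lo k + k - 1 + u 1) 1 0 1 0 (by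
        intro z hz s t s0 s1 t0 t1
        rcases hmem z hz with h | ⟨i, hi, -⟩
        · simp only [InSq] at h
          omega
        · omega)
    have e1 : (lo k + k - 1 + u 0 + 1 - (lo k + l 0)).toNat = k + a := by omega
    have e2 : (lo k + k - 1 + u 1 + 1 - (lo k + l 1)).toNat = k + a := by omega
    rw [e1, e2] at h1
    simpa using h1
  · intro h1 h2
    rcases Nat.even_or_odd' k with ⟨q, hq | hq⟩
    · have h3 := thick_le_of (l := l) (u := u) (S := (range (k * k + j)).image spiral)
        (lo k + l 0) (lo k + k - 1 + u 0) (lo k + l 1) (lo k + k - 1 + u 1)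
        (lo k - 1 + l 0) (lo k - 1 + l 0) (lo k + l 1) (lo k + j - 1 + u 1) (by
          intro z hz s t s0 s1 t0 t1
          rcases hmem z hz with h | ⟨i, hi, rfl⟩
          · simp only [InSq] at h
            omega
          · have := pt_cases k i
            omega)
      have e1 : (lo k + k - 1 + u 0 + 1 - (lo k + l 0)).toNat = k + a := by omega
      have e2 : (lo k + k - 1 + u 1 + 1 - (lo k + l 1)).toNat = k + a := by omega
      have e3 : (lo k - 1 + l 0 + 1 - (lo k - 1 + l 0)).toNat = 1 := by omega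
      have e4 : (lo k + j - 1 + u 1 + 1 - (lo k + l 1)).toNat = j + a := by omega
      rw [e1, e2, e3, e4, one_mul] at h3
      exact h3
    · have h3 := thick_le_of (l := l) (u := u) (S := (range (k * k + j)).image spiral)
        (lo k + l 0) (lo k + k - 1 + u 0) (lo k + l 1) (lo k + k - 1 + u 1)
        (lo k + k + u 0) (lo k + k + u 0) (lo k + l 1) (lo k + j - 1 + u 1) (by
          intro z hz s t s0 s1 t0 t1
          rcases hmem z hz with h | ⟨i, hi, rfl⟩
          · simp only [InSq] at h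
            omega
          · have := pt_cases k i
            omega)
      have e1 : (lo k + k - 1 + u 0 + 1 - (lo k + l 0)).toNat = k + a := by omega
      have e2 : (lo k + k - 1 + u 1 + 1 - (lo k + l 1)).toNat = k + a := by omega
      have e3 : (lo k + k + u 0 + 1 - (lo k + k + u 0)).toNat = 1 := by omega
      have e4 : (lo k + j - 1 + u 1 + 1 - (lo k + l 1)).toNat = j + a := by omega
      rw [e1, e2, e3, e4, one_mul] at h3
      exact h3
  · intro h1
    rcases Nat.even_or_odd' k with ⟨q, hq | hq⟩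
    · have h3 := thick_le_of (l := l) (u := u) (S := (range (k * k + j)).image spiral)
        (lo k - 1 + l 0) (lo k + k - 1 + u 0) (lo k + l 1) (lo k + k - 1 + u 1)
        (lo k - 1 + l 0) (lo k - 1 + ((j : ℤ) - k) - 1 + u 0) (lo k - 1 + l 1) (lo k - 1 + l 1) (by
          intro z hz s t s0 s1 t0 t1
          rcases hmem z hz with h | ⟨i, hi, rfl⟩
          · simp only [InSq] at h
            omega
          · have := pt_cases k i
            omega)
      have e1 : (lo k + k - 1 + u 0 + 1 - (lo k - 1 + l 0)).toNat = k + 1 + a := by omega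
      have e2 : (lo k + k - 1 + u 1 + 1 - (lo k + l 1)).toNat = k + a := by omega
      have e3 : (lo k - 1 + ((j : ℤ) - k) - 1 + u 0 + 1 - (lo k - 1 + l 0)).toNat = j - k + a := by
        omega
      have e4 : (lo k - 1 + l 1 + 1 - (lo k - 1 + l 1)).toNat = 1 := by omega
      rw [e1, e2, e3, e4, mul_one] at h3
      exact h3
    · have h3 := thick_le_of (l := l) (u := u) (S := (range (k * k + j)).image spiral)
        (lo k + l 0) (lo k + k + u 0) (lo k + l 1) (lo k + k - 1 + u 1)
        (lo k + l 0) (lo k + ((j : ℤ) - k) - 1 + u 0) (lo k + k + u 1) (lo k + k + u 1) (by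
          intro z hz s t s0 s1 t0 t1
          rcases hmem z hz with h | ⟨i, hi, rfl⟩
          · simp only [InSq] at h
            omega
          · have := pt_cases k i
            omega)
      have e1 : (lo k + k + u 0 + 1 - (lo k + l 0)).toNat = k + 1 + a := by omega
      have e2 : (lo k + k - 1 + u 1 + 1 - (lo k + l 1)).toNat = k + a := by omega
      have e3 : (lo k + ((j : ℤ) - k) - 1 + u 0 + 1 - (lo k + l 0)).toNat = j - k + a := by omega
      have e4 : (lo k + k + u 1 + 1 - (lo k + k + u 1)).toNat = 1 := by omega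
      rw [e1, e2, e3, e4, mul_one] at h3
      exact h3

/-- The lower bounds for the sum of a set and the full box. -/
theorem thick_lower {a : ℕ} (ha : u 0 = l 0 + a) (hb : u 1 = l 1 + a)
    {S : Finset (Fin 2 → ℤ)} (hS : S.Nonempty) (m : ℕ) (hm : ∀ s : ℕ, s < m → s * s < 4 * S.card) :
    S.card + a * m + a * a ≤ (thick l u S).card := by
  have h1 := thick_ge (l := l) (u := u) ha hb hS
  have h2 := card_le_shadows S
  set c := (shadow 0 S).card with hc
  set r := (shadow 1 S).card with hr
  have h3 : m ≤ c + r := by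
    by_contra hcon
    push Not at hcon
    have h4 := hm (c + r) hcon
    have h5 : 4 * (c * r) ≤ (c + r) * (c + r) := by nlinarith [sq_nonneg ((c : ℤ) - r)]
    omega
  calc S.card + a * m + a * a ≤ S.card + a * (c + r) + a * a := by
        have := Nat.mul_le_mul_left a h3
        omega
    _ = S.card + a * c + a * (r + a) := by ring
    _ ≤ _ := h1

/-- **Squares.** All initial segments of the spiral are optimal. -/
theorem spiral_optimal (hl : l ≤ 0) (hu : 0 ≤ u) {a : ℕ} (ha : u 0 = l 0 + a)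
    (hb : u 1 = l 1 + a) (n : ℕ) :
    boundary (box l u) ((range n).image spiral) = minBoundary (box l u) n := by
  set S := (range n).image spiral with hS
  have hcard : S.card = n := card_segment n
  have hle : minBoundary (box l u) n ≤ boundary (box l u) S := Nat.sInf_le ⟨S, hcard, rfl⟩
  have hne : {k | ∃ S : Finset (Fin 2 → ℤ), S.card = n ∧ boundary (box l u) S = k}.Nonempty :=
    ⟨boundary (box l u) S, S, hcard, rfl⟩
  obtain ⟨T, hT, hTb⟩ : ∃ T : Finset (Fin 2 → ℤ), T.card = n ∧
      boundary (box l u) T = minBoundary (box l u) n := Nat.sInf_mem hne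
  refine le_antisymm ?_ hle
  rw [← hTb]
  rcases Nat.eq_zero_or_pos n with h0 | hpos
  · have : S = ∅ := by rw [← card_eq_zero, hcard, h0]
    rw [this]
    simp [boundary]
  have hTne : T.Nonempty := by rw [← card_pos, hT]; exact hpos
  have h1 := boundary_add_card hl hu S
  have h2 := boundary_add_card hl hu T
  rw [hcard] at h1
  rw [hT] at h2
  obtain ⟨k, j, hj, hn, -, -⟩ := sqrt_spec n
  obtain ⟨t0, t1, t2⟩ := thick_segment (l := l) (u := u) ha hb hj
  rw [← hn, ← hS] at t0 t1 t2
  have hlow : ∀ m : ℕ, (∀ s : ℕ, s < m → s * s < 4 * n) →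
      n + a * m + a * a ≤ (thick l u T).card := by
    intro m hm
    have := thick_lower (l := l) (u := u) ha hb hTne m (by rw [hT]; exact hm)
    rwa [hT] at this
  rcases Nat.eq_zero_or_pos j with hj0 | hj1
  · have hk1 : 1 ≤ k := by
      rcases Nat.eq_zero_or_pos k with hk | hk
      · subst hk; omega
      · exact hk
    have h3 := hlow (2 * k) (by
      intro s hs
      have : s * s < (2 * k) * (2 * k) := Nat.mul_lt_mul'' hs hs
      have e : (2 * k) * (2 * k) = 4 * (k * k) := by ring
      omega)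
    have h4 := t0 hj0
    have e1 : (k + a) * (k + a) = k * k + a * (2 * k) + a * a := by ring
    omega
  · rcases Nat.lt_or_ge k j with hkj | hkj
    · have h3 := hlow (2 * k + 2) (by
        intro s hs
        have : s * s ≤ (2 * k + 1) * (2 * k + 1) := Nat.mul_le_mul (by omega) (by omega)
        have e : (2 * k + 1) * (2 * k + 1) = 4 * (k * k) + 4 * k + 1 := by ring
        omega)
      have h4 := t2 hkj
      have e1 : (k + 1 + a) * (k + a) = k * k + a * (2 * k + 2) + a * a + k - a := by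
        have : (k + 1 + a) * (k + a) + a = k * k + a * (2 * k + 2) + a * a + k := by ring
        omega
      have e2 : a ≤ a * (2 * k + 2) := Nat.le_mul_of_pos_right _ (by omega)
      omega
    · have h3 := hlow (2 * k + 1) (by
        intro s hs
        have : s * s ≤ (2 * k) * (2 * k) := Nat.mul_le_mul (by omega) (by omega)
        have e : (2 * k) * (2 * k) = 4 * (k * k) := by ring
        omega)
      have h4 := t1 hj1 hkj
      have e1 : (k + a) * (k + a) + a = k * k + a * (2 * k + 1) + a * a := by ring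
      omega

end Pool.Agent.K4H23.NV
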